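import Pool.Agent.H242.LD.Stm

/-!
# Project LD, task CHILD: a node has `N` children
-/

set_option autoImplicit false

namespace Pool.Agent.H643.LD

open Real Set Metric Filter Topology
open Pool.Agent.H242.LD Pool.Agent.H242.TM

lemma sin_hi (ω : ℝ) (k : ℤ) : sin (2 * π * hi ω k) = (-1 : ℝ) ^ k * cos (2 * π * ω) := by
  have : 2 * π * hi ω k = (π / 2 - 2 * π * ω) + k * π := by unfold hi; ring
  rw [this, sin_add_int_mul_pi, sin_pi_div_two_sub]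

lemma sin_lo (ω : ℝ) (k : ℤ) : sin (2 * π * lo ω k) = -((-1 : ℝ) ^ k * cos (2 * π * ω)) := by
  have : 2 * π * lo ω k = -(π / 2 - 2 * π * ω) + k * π := by unfold lo; ring
  rw [this, sin_add_int_mul_pi, sin_neg, sin_pi_div_two_sub]
  ring

lemma phi_diff (a ω : ℝ) (k : ℤ) : phi a (hi ω k) - phi a (lo ω k) =
    1 - 4 * ω + 2 * (a * (-1 : ℝ) ^ k) * cos (2 * π * ω) := by
  unfold phi
  rw [sin_hi, sin_lo]
  unfold hi lo
  ring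

lemma abs_sign (a : ℝ) (k : ℤ) : |a * (-1 : ℝ) ^ k| = |a| := by
  rw [abs_mul, abs_zpow, abs_neg, abs_one, one_zpow, mul_one]

theorem ld_CHILD : S_CHILD := by
  intro a ω h N γ n s t k hω hω4 hh hN hγ hNode
  obtain ⟨hC, hy⟩ := hNode
  have hc : Continuous (fun τ => ((F a)^[n + 1] (γ τ)).1) :=
    (((F_cont a).iterate (n + 1)).comp hγ).fst
  have hst := hC.1
  have hss : s ∈ Icc s t := ⟨le_rfl, hst⟩
  have htt : t ∈ Icc s t := ⟨hst, le_rfl⟩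
  obtain ⟨p, q, hp, hq, hp1, hq1⟩ : ∃ p q, p ∈ Icc s t ∧ q ∈ Icc s t ∧
      ((F a)^[n] (γ p)).1 = lo ω k ∧ ((F a)^[n] (γ q)).1 = hi ω k := by
    rcases hC.2.1 with ⟨h1, h2⟩ | ⟨h1, h2⟩
    · exact ⟨s, t, hss, htt, h1, h2⟩
    · exact ⟨t, s, htt, hss, h2, h1⟩
  have hdiff : ((F a)^[n + 1] (γ q)).1 - ((F a)^[n + 1] (γ p)).1 =
      1 - 4 * ω + 2 * (a * (-1 : ℝ) ^ k) * cos (2 * π * ω) -
        (((F a)^[n] (γ q)).2 - ((F a)^[n] (γ p)).2) := by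
    rw [iter_fst', iter_fst', hp1, hq1]
    linarith [phi_diff a ω k]
  have hyq := abs_le.1 (hy q hq p hp)
  obtain ⟨u, v, hu, hv, huv⟩ : ∃ u v, u ∈ Icc s t ∧ v ∈ Icc s t ∧
      ((F a)^[n + 1] (γ u)).1 + ((N : ℝ) + 1) / 2 ≤ ((F a)^[n + 1] (γ v)).1 := by
    have habs := abs_sign a k
    rcases le_total 0 (a * (-1 : ℝ) ^ k) with h0 | h0
    · rw [abs_of_nonneg h0] at habs
      rw [habs] at hdiff
      exact ⟨p, q, hp, hq, by linarith [hyq.1, hyq.2]⟩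
    · rw [abs_of_nonpos h0] at habs
      have habs' : a * (-1 : ℝ) ^ k = -|a| := by linarith
      rw [habs'] at hdiff
      exact ⟨q, p, hq, hp, by linarith [hyq.1, hyq.2]⟩
  set A := ((F a)^[n + 1] (γ u)).1 with hA
  have hk1 : 2 * A + 1 / 2 ≤ (⌈2 * A + 1 / 2⌉ : ℝ) := Int.le_ceil _
  have hk2 : (⌈2 * A + 1 / 2⌉ : ℝ) < 2 * A + 1 / 2 + 1 := Int.ceil_lt_add_one _
  refine ⟨fun i => ⌈2 * A + 1 / 2⌉ + (i : ℕ), ?_, ?_⟩
  · intro i j hij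
    have hij' : ((i : ℕ) : ℤ) = ((j : ℕ) : ℤ) := by
      have : ⌈2 * A + 1 / 2⌉ + ((i : ℕ) : ℤ) = ⌈2 * A + 1 / 2⌉ + ((j : ℕ) : ℤ) := hij
      omega
    apply Fin.ext
    exact_mod_cast hij'
  · intro i
    have hi1 : ((i : ℕ) : ℝ) + 1 ≤ N := by exact_mod_cast i.2
    have hi0 : (0 : ℝ) ≤ ((i : ℕ) : ℝ) := Nat.cast_nonneg _
    have g1 : A ≤ lo ω (⌈2 * A + 1 / 2⌉ + ((i : ℕ) : ℤ)) := by
      unfold lo; push_cast; linarith
    have g2 : hi ω (⌈2 * A + 1 / 2⌉ + ((i : ℕ) : ℤ)) ≤ ((F a)^[n + 1] (γ v)).1 := by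
      unfold hi; push_cast; linarith
    have g3 : lo ω (⌈2 * A + 1 / 2⌉ + ((i : ℕ) : ℤ)) ≤
        hi ω (⌈2 * A + 1 / 2⌉ + ((i : ℕ) : ℤ)) := by
      unfold lo hi; linarith
    obtain ⟨s', t', h1, h2, h3⟩ := cross_sub hc (u := u) (v := v) g1 g2 g3
    have hs' : s ≤ s' := (le_min hu.1 hv.1).trans h1
    have ht' : t' ≤ t := h2.trans (max_le hu.2 hv.2)
    refine ⟨s', t', hs', ht', h3, ?_⟩
    intro τ hτ σ hσ
    rw [iter_snd, iter_snd]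
    have h4 := hC.2.2 τ ⟨hs'.trans hτ.1, hτ.2.trans ht'⟩
    have h5 := hC.2.2 σ ⟨hs'.trans hσ.1, hσ.2.trans ht'⟩
    simp only [lo, hi] at h4 h5
    rw [abs_le]
    constructor <;> linarith [h4.1, h4.2, h5.1, h5.2]

end Pool.Agent.H643.LD
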